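import Pool.Agent.L7h29.BP.Thr
import Pool.Agent.L7h34.BO.Stm

set_option autoImplicit false

/-! Project BO, part NRTO: the prime 3. -/

namespace Pool.Agent.L7h9.BO

open Finset Polynomial Pool.Agent.L7h58.BP Pool.Agent.L7h34.BO Pool.Agent.L7h29.BP

theorem pow5 {K : Type*} [Field K] (h9 : ∀ x : K, x ^ 9 = x) (x : K) (m : ℕ) :
    x ^ (8 * m + 5) = x ^ 5 := by
  induction m with
  | zero => simp
  | succ m ih =>
    rw [show 8 * (m + 1) + 5 = (8 * m + 4) + 9 by ring, pow_add, h9 x, ← pow_succ, ih]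

theorem pow7 {K : Type*} [Field K] (h9 : ∀ x : K, x ^ 9 = x) (x : K) (m : ℕ) :
    x ^ (8 * m + 7) = x ^ 7 := by
  induction m with
  | zero => simp
  | succ m ih =>
    rw [show 8 * (m + 1) + 7 = (8 * m + 6) + 9 by ring, pow_add, h9 x, ← pow_succ, ih]

theorem noroot_odd {K : Type*} [Field K] [CharP K 3] (h9 : ∀ x : K, x ^ 9 = x) (n : ℕ)
    (hn : n % 8 = 5 ∨ n % 8 = 7) (x : K) (hx : x ^ 3 - x ≠ 0) :
    x ^ n + (x + 1) ^ n + (x + 2) ^ n ≠ 0 := by
  have h3 : (3 : K) = 0 := by
    have := CharP.cast_eq_zero K 3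
    exact_mod_cast this
  rcases hn with hn | hn
  · have hk : n = 8 * (n / 8) + 5 := by omega
    rw [hk, pow5 h9, pow5 h9, pow5 h9]
    have : x ^ 5 + (x + 1) ^ 5 + (x + 2) ^ 5 = -(x ^ 3 - x) := by
      linear_combination (x ^ 5 + 5 * x ^ 4 + 17 * x ^ 3 + 30 * x ^ 2 + 28 * x + 11) * h3
    rw [this]
    exact neg_ne_zero.mpr hx
  · have hk : n = 8 * (n / 8) + 7 := by omega
    rw [hk, pow7 h9, pow7 h9, pow7 h9]
    have : x ^ 7 + (x + 1) ^ 7 + (x + 2) ^ 7 = x ^ 3 - x := by
      linear_combination (x ^ 7 + 7 * x ^ 6 + 35 * x ^ 5 + 105 * x ^ 4 + 198 * x ^ 3 + 231 * x ^ 2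
        + 152 * x + 43) * h3
    rw [this]
    exact hx

theorem pow_even_zmod3 (y : ZMod 3) (k : ℕ) : y ^ (2 * k + 2) = y ^ 2 := by
  have h3 : ∀ y : ZMod 3, y ^ 3 = y := by decide
  induction k with
  | zero => simp
  | succ k ih =>
    rw [show 2 * (k + 1) + 2 = (2 * k + 1) + 3 by ring, pow_add, h3 y, ← pow_succ, ih]

theorem two_sum : ∀ x : ZMod 3, (2 : ZMod 3) * (x ^ 2 + (x + 1) ^ 2 + (x + 2) ^ 2) = 0 → False := by
  decide

theorem cube_zmod3 : ∀ y : ZMod 3, y ^ 3 - y = 0 := by decide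

theorem no_double (n : ℕ) (h3 : n % 3 = 2) (h8 : n % 8 = 5 ∨ n % 8 = 7) (x : ZMod 3)
    (hd : (X - C x) * (X - C x) ∣ Sp 3 n) : False := by
  obtain ⟨H, hH⟩ := hd
  have h1 : (derivative (Sp 3 n)).eval x = 0 := by
    rw [hH]
    simp [derivative_mul]
  have h2 : (derivative (Sp 3 n)).eval x = (n : ZMod 3) * (x ^ (n - 1) + (x + 1) ^ (n - 1)
      + (x + 2) ^ (n - 1)) := by
    rw [Sp_three]
    simp only [derivative_add, derivative_X_add_C_pow]
    simp
    ring
  have hn : (n : ZMod 3) = 2 := by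
    have := ZMod.natCast_mod n 3
    rw [← this, h3]
    rfl
  have hk : n - 1 = 2 * ((n - 3) / 2) + 2 := by omega
  rw [h2, hn, hk, pow_even_zmod3, pow_even_zmod3, pow_even_zmod3] at h1
  exact two_sum x h1

theorem s_NRTO : S_NRTO := by
  intro n h3 h8 F hF hd
  have hprime : Fact (Nat.Prime 3) := ⟨Nat.prime_three⟩
  by_cases hirr : Irreducible F
  · have hfact : Fact (Irreducible F) := ⟨hirr⟩
    have hF0 : F ≠ 0 := hirr.ne_zero
    let K := AdjoinRoot F
    let x : K := AdjoinRoot.root F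
    have hfin : Module.finrank (ZMod 3) K = 2 := by
      rw [PowerBasis.finrank (AdjoinRoot.powerBasis hF0), AdjoinRoot.powerBasis_dim, hd]
    have hfd : FiniteDimensional (ZMod 3) K := Module.finite_of_finrank_pos (by rw [hfin]; norm_num)
    have hKf : Finite K := Module.finite_of_finite (ZMod 3)
    have hKft : Fintype K := Fintype.ofFinite K
    have hcard : Fintype.card K = 9 := by
      rw [Module.card_eq_pow_finrank (K := ZMod 3) (V := K), hfin, ZMod.card]
      norm_num
    have hchar : CharP K 3 := charP_of_injective_algebraMap (algebraMap (ZMod 3) K).injective 3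
    have h9 : ∀ y : K, y ^ 9 = y := by
      intro y
      have := FiniteField.pow_card y
      rwa [hcard] at this
    have hx : x ^ 3 - x ≠ 0 := by
      intro h
      have h4 : AdjoinRoot.mk F (X ^ 3 - X) = 0 := by
        rw [map_sub, map_pow, AdjoinRoot.mk_X]
        exact h
      rw [AdjoinRoot.mk_eq_zero] at h4
      have h5 : (X ^ 3 - X : (ZMod 3)[X]) = X * ((X - C 1) * (X - C (-1))) := by
        simp only [C_1, C_neg]
        ring
      rw [h5] at h4
      have hpr : Prime F := hirr.prime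
      rcases hpr.dvd_or_dvd h4 with h6 | h6
      · have := natDegree_le_of_dvd h6 X_ne_zero
        rw [natDegree_X] at this
        omega
      · rcases hpr.dvd_or_dvd h6 with h7 | h7
        · have := natDegree_le_of_dvd h7 (X_sub_C_ne_zero _)
          rw [natDegree_X_sub_C] at this
          omega
        · have := natDegree_le_of_dvd h7 (X_sub_C_ne_zero _)
          rw [natDegree_X_sub_C] at this
          omega
    apply noroot_odd h9 n h8 x hx
    have h1 : aeval x (Sp 3 n) = 0 := by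
      obtain ⟨G, hG⟩ := hF
      rw [hG, map_mul, map_mul]
      have : aeval x F = 0 := by
        rw [AdjoinRoot.aeval_eq]; exact AdjoinRoot.mk_self
      rw [this, zero_mul, zero_mul]
    rw [Sp_three] at h1
    have h2 : algebraMap (ZMod 3) K 2 = 2 := map_ofNat _ 2
    simpa [h2] using h1
  · rw [Polynomial.irreducible_iff_roots_eq_zero_of_degree_le_three (by omega) (by omega)] at hirr
    obtain ⟨x, hx⟩ := Multiset.exists_mem_of_ne_zero hirr
    have hroot : F.eval x = 0 := (mem_roots'.mp hx).2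
    apply no_double n h3 h8 x
    refine dvd_trans (mul_dvd_mul ?_ ?_) hF
    · exact dvd_iff_isRoot.mpr hroot
    · rw [dvd_iff_isRoot]
      simp only [IsRoot.def, eval_sub, eval_pow, eval_X]
      exact cube_zmod3 x

end Pool.Agent.L7h9.BO
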